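import Mathlib

/-!
# MP_4023cd_nt: the critical orbit of `x ^ 2 + 1` modulo a stable prime

We show that `f = x ^ 2 + 1` is stable modulo a prime `p` exactly when `p ≡ 3 (mod 4)` and the
critical orbit `0, 1, 2, 5, …` reaches `-1` through nonsquares: for some `n ≥ 2` the `n`-th iterate
of `f` at `0` is `-1` modulo `p`, and the second to the `n`-th iterates are nonsquares modulo `p`.
So for a stable prime the critical orbit is `0, 1`, followed by a cycle of nonsquares that starts
with `2` and ends with `-1`.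
-/

namespace Pool.Agent.Results.MP_4023cd_nt.CriticalCycle

open Polynomial IntermediateField

/-- `x ^ 2 + 1` is stable over the field with `p` elements: its `n`-fold composition with itself is
irreducible for every `n ≥ 1`. -/
def Stable (p : ℕ) : Prop :=
  ∀ n : ℕ, 1 ≤ n →
    Irreducible ((fun g : (ZMod p)[X] => (X ^ 2 + 1 : (ZMod p)[X]).comp g)^[n] X)

/-- The `n`-th iterate of `x ↦ x ^ 2 + 1` at `0`, modulo `p`: `0, 1, 2, 5, 26, …`. -/
def orb (p n : ℕ) : ZMod p := (fun x : ZMod p => x ^ 2 + 1)^[n] 0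

section aux

variable {p : ℕ}

/-- the iterates as polynomials -/
noncomputable def it (p n : ℕ) : (ZMod p)[X] :=
  (fun g : (ZMod p)[X] => (X ^ 2 + 1 : (ZMod p)[X]).comp g)^[n] X

theorem it_zero : it p 0 = X := rfl

theorem it_succ (n : ℕ) : it p (n + 1) = it p n ^ 2 + 1 := by
  unfold it
  rw [Function.iterate_succ_apply']
  simp

theorem it_succ' (n : ℕ) : it p (n + 1) = (it p n).comp (X ^ 2 + 1) := by
  induction n with
  | zero => rw [it_succ, it_zero]; simp
  | succ n ih =>
    rw [it_succ (n + 1)]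
    conv_lhs => rw [ih]
    rw [it_succ n]
    simp

theorem orb_succ (n : ℕ) : orb p (n + 1) = orb p n ^ 2 + 1 := by
  unfold orb
  rw [Function.iterate_succ_apply']

theorem it_eval (n : ℕ) (x : ZMod p) :
    (it p n).eval x = (fun x : ZMod p => x ^ 2 + 1)^[n] x := by
  induction n with
  | zero => simp [it_zero]
  | succ n ih => rw [it_succ, Function.iterate_succ_apply', ← ih]; simp

variable [hp : Fact p.Prime]

theorem it_monic_deg (n : ℕ) : (it p n).Monic ∧ (it p n).natDegree = 2 ^ n := by
  induction n with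
  | zero => rw [it_zero]; exact ⟨monic_X, by simp⟩
  | succ n ih =>
    have h1 : (it p n ^ 2).natDegree = 2 ^ (n + 1) := by
      rw [ih.1.natDegree_pow, ih.2]; ring
    have h2 : (1 : (ZMod p)[X]).degree < (it p n ^ 2).degree := by
      rw [degree_one, (ih.1.pow 2).degree_pos]
      intro h
      rw [h, natDegree_one] at h1
      exact absurd h1.symm (by positivity)
    rw [it_succ]
    refine ⟨(ih.1.pow 2).add_of_left h2, ?_⟩
    rw [natDegree_add_eq_left_of_degree_lt h2, h1]

/-- the polynomial whose composition with `X ^ 2` is the iterate -/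
noncomputable def sh (p n : ℕ) : (ZMod p)[X] := (it p n).comp (X + C 1)

theorem expand_sh (n : ℕ) : expand (ZMod p) 2 (sh p n) = it p (n + 1) := by
  rw [expand_eq_comp_X_pow, sh, comp_assoc, it_succ']
  simp

theorem sh_irreducible (n : ℕ) : Irreducible (sh p n) ↔ Irreducible (it p n) := by
  have h := MulEquiv.irreducible_iff (algEquivAevalXAddC (1 : ZMod p)) (x := it p n)
  rw [← h]
  rfl

theorem sh_monic (n : ℕ) : (sh p n).Monic := (it_monic_deg n).1.comp_X_add_C 1

theorem sh_natDegree (n : ℕ) : (sh p n).natDegree = 2 ^ n := by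
  rw [sh, natDegree_comp, (it_monic_deg n).2, natDegree_X_add_C, mul_one]

theorem sh_coeff (n : ℕ) : (sh p n).coeff 0 = orb p (n + 1) := by
  rw [coeff_zero_eq_eval_zero, sh, eval_comp, it_eval]
  unfold orb
  rw [Function.iterate_succ_apply]
  simp

/-- a nonsquare constant coefficient allows the substitution of `X ^ 2` -/
theorem irreducible_expand {G : (ZMod p)[X]} (hm : G.Monic) (hG : Irreducible G)
    (he : Even G.natDegree) (h : ¬ IsSquare (G.coeff 0)) : Irreducible (expand (ZMod p) 2 G) := by
  rw [expand_eq_comp_X_pow]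
  refine irreducible_comp hm (monic_X_pow 2) hG ?_
  intro E _ _ x hx
  rw [Polynomial.map_pow, map_X]
  apply X_pow_sub_C_irreducible_of_prime Nat.prime_two
  intro b hb
  apply h
  have hxi : IsIntegral (ZMod p) x := by
    by_contra hc
    rw [minpoly.eq_zero hc] at hx
    exact hG.ne_zero hx.symm
  have h1 := Algebra.PowerBasis.norm_gen_eq_coeff_zero_minpoly (adjoin.powerBasis hxi)
  rw [adjoin.powerBasis_gen, minpoly_gen, hx, adjoin.powerBasis_dim, hx, he.neg_one_pow,
    one_mul, ← hb, map_pow] at h1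
  exact ⟨_, by rw [← h1, sq]⟩

/-- a square constant coefficient forbids the substitution of `X ^ 2` -/
theorem not_isSquare_of_irreducible_expand (h2 : p ≠ 2) {G : (ZMod p)[X]} (hm : G.Monic)
    (he : Even G.natDegree) (hd : G.natDegree ≠ 0)
    (h : Irreducible (expand (ZMod p) 2 G)) : ¬ IsSquare (G.coeff 0) := by
  have hG : Irreducible G := of_irreducible_expand two_ne_zero h
  have hF := Fact.mk hG
  let K := AdjoinRoot G
  let pb := AdjoinRoot.powerBasis hG.ne_zero
  have hfin : Module.Finite (ZMod p) K := pb.finite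
  have hK : Finite K := Module.finite_of_finite (ZMod p)
  have : Fintype K := Fintype.ofFinite K
  have hrank : Module.finrank (ZMod p) K = G.natDegree := by
    rw [pb.finrank, AdjoinRoot.powerBasis_dim]
  have hcard : Nat.card K = p ^ G.natDegree := by
    rw [← hrank, Module.natCard_eq_pow_finrank (K := ZMod p), Nat.card_zmod]
  set r : K := AdjoinRoot.root G with hr
  have hr0 : aeval r G = 0 := by
    rw [aeval_def, AdjoinRoot.algebraMap_eq]; exact AdjoinRoot.eval₂_root G
  have hns : ¬ IsSquare r := by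
    rintro ⟨t, ht⟩
    have h3 : aeval t (expand (ZMod p) 2 G) = 0 := by
      rw [expand_aeval, sq, ← ht, hr0]
    have h4 := minpoly.eq_of_irreducible_of_monic h h3 (hm.expand two_pos)
    have h5 := minpoly.natDegree_le (A := ZMod p) t
    rw [← h4, natDegree_expand, hrank] at h5
    omega
  have hodd : Odd p := hp.out.odd_of_ne_two h2
  rintro ⟨s, hs⟩
  have hnorm : Algebra.norm (ZMod p) r = s * s := by
    have h6 := Algebra.PowerBasis.norm_gen_eq_coeff_zero_minpoly pb
    have h7 : pb.gen = r := AdjoinRoot.powerBasis_gen hG.ne_zero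
    have h8 : minpoly (ZMod p) r = G := by
      rw [hr, AdjoinRoot.minpoly_root hG.ne_zero, hm.leadingCoeff, inv_one, map_one, mul_one]
    rw [h7, h8, AdjoinRoot.powerBasis_dim, he.neg_one_pow, one_mul, hs] at h6
    exact h6
  have hr_ne : r ≠ 0 := fun h9 => hns (h9 ▸ IsSquare.zero)
  have hs_ne : s ≠ 0 := by
    rintro rfl
    rw [mul_zero, Algebra.norm_eq_zero_iff] at hnorm
    exact hr_ne hnorm
  have hpow := FiniteField.algebraMap_norm_eq_pow (K := ZMod p) (K' := K) (x := r)
  rw [hnorm, Nat.card_zmod, hcard, map_mul] at hpow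
  have hchar : ringChar K ≠ 2 := by
    have : CharP K p := charP_of_injective_algebraMap (algebraMap (ZMod p) K).injective p
    rw [ringChar.eq K p]
    exact h2
  apply hns
  rw [FiniteField.isSquare_iff hchar hr_ne, ← Nat.card_eq_fintype_card, hcard]
  obtain ⟨q, hq⟩ : p - 1 ∣ p ^ G.natDegree - 1 := by
    simpa using Nat.sub_dvd_pow_sub_pow p 1 G.natDegree
  obtain ⟨u, hu⟩ := hodd
  have hu0 : 0 < u := by
    have := hp.out.two_le
    omega
  have hp1 : p - 1 = 2 * u := by omega
  have hpp : 1 ≤ p ^ G.natDegree := Nat.one_le_pow _ _ hp.out.pos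
  have h10 : p ^ G.natDegree = 2 * (u * q) + 1 := by
    rw [hp1] at hq
    rw [← mul_assoc]; omega
  have h11 : (p ^ G.natDegree - 1) / (p - 1) = q := by
    rw [hq]
    exact Nat.mul_div_cancel_left _ (by omega)
  have h12 : p ^ G.natDegree / 2 = q * u := by rw [h10]; rw [mul_comm u q]; omega
  rw [h11] at hpow
  rw [h12, pow_mul, ← hpow, ← map_mul, ← map_pow, ← sq, ← pow_mul, ← hp1,
    ZMod.pow_card_sub_one_eq_one hs_ne, map_one]

/-- the first iterate -/
theorem irreducible_one : Irreducible (it p 1) ↔ ¬ IsSquare (-1 : ZMod p) := by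
  have h3 : it p 1 = X ^ 2 - C (-1 : ZMod p) := by
    rw [it_succ, it_zero]; simp
  rw [h3]
  constructor
  · rintro h ⟨s, hs⟩
    have h4 : (X ^ 2 - C (-1 : ZMod p)) = (X - C s) * (X + C s) := by
      rw [hs, C_mul]; ring
    rw [h4] at h
    rcases h.isUnit_or_isUnit rfl with h5 | h5
    · exact not_isUnit_X_sub_C _ h5
    · rw [← sub_neg_eq_add, ← C_neg] at h5
      exact not_isUnit_X_sub_C _ h5
  · intro h
    apply X_pow_sub_C_irreducible_of_prime Nat.prime_two
    intro b hb
    exact h ⟨b, by rw [← hb, sq]⟩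

/-- the criterion through the critical orbit -/
theorem stable_iff (h2 : p ≠ 2) :
    Stable p ↔ ¬ IsSquare (-1 : ZMod p) ∧ ∀ n, 2 ≤ n → ¬ IsSquare (orb p n) := by
  have h1 := irreducible_one (p := p)
  have he : ∀ n, Even (sh p (n + 1)).natDegree := fun n => by
    rw [sh_natDegree, pow_succ]; exact even_two.mul_left _
  have hd : ∀ n, (sh p (n + 1)).natDegree ≠ 0 := fun n => by
    rw [sh_natDegree]; positivity
  constructor
  · intro h
    refine ⟨h1.1 (h 1 le_rfl), ?_⟩
    intro n hn
    obtain ⟨m, rfl⟩ : ∃ m, n = m + 2 := ⟨n - 2, by omega⟩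
    rw [show m + 2 = (m + 1) + 1 from rfl, ← sh_coeff]
    apply not_isSquare_of_irreducible_expand h2 (sh_monic _) (he m) (hd m)
    rw [expand_sh]
    exact h (m + 2) (by omega)
  · rintro ⟨h3, h4⟩ n hn
    show Irreducible (it p n)
    induction n, hn using Nat.le_induction with
    | base => exact h1.2 h3
    | succ n hn ih =>
      obtain ⟨m, rfl⟩ : ∃ m, n = m + 1 := ⟨n - 1, by omega⟩
      rw [← expand_sh]
      apply irreducible_expand (sh_monic _) ((sh_irreducible _).2 ih) (he m)
      rw [sh_coeff]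
      exact h4 _ (by omega)

omit hp in
/-- after a repetition the orbit is periodic -/
theorem orb_add {s t : ℕ} (h : orb p s = orb p t) (k : ℕ) : orb p (s + k) = orb p (t + k) := by
  induction k with
  | zero => exact h
  | succ k ih => rw [← add_assoc, ← add_assoc, orb_succ, orb_succ, ih]

theorem exists_neg_one (hm : ¬ IsSquare (-1 : ZMod p))
    (h : ∀ n, 2 ≤ n → ¬ IsSquare (orb p n)) : ∃ n, 2 ≤ n ∧ orb p n = -1 := by
  classical
  -- a first repetition
  have hex : ∃ t, ∃ s, s < t ∧ orb p s = orb p t := by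
    obtain ⟨s, t, hst, h1⟩ := Finite.exists_ne_map_eq_of_infinite (orb p)
    rcases lt_or_gt_of_ne hst with h2 | h2
    · exact ⟨t, s, h2, h1⟩
    · exact ⟨s, t, h2, h1.symm⟩
  obtain ⟨s, hst, h1⟩ := Nat.find_spec hex
  set t := Nat.find hex with ht
  have hmin : ∀ t' < t, ∀ s' < t', orb p s' ≠ orb p t' := fun t' h2 s' h3 h4 =>
    Nat.find_min hex h2 ⟨s', h3, h4⟩
  have h0 : orb p 0 = 0 := rfl
  have h01 : orb p 1 = 1 := by rw [orb_succ, h0]; ring
  -- the repeated value is not `0`
  have hs0 : s ≠ 0 := by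
    rintro rfl
    by_cases ht2 : 2 ≤ t
    · exact h t ht2 (by rw [← h1, h0]; exact IsSquare.zero)
    · have : t = 1 := by omega
      rw [this, h01, h0] at h1
      exact zero_ne_one h1
  obtain ⟨s, rfl⟩ : ∃ s', s = s' + 1 := ⟨s - 1, by omega⟩
  obtain ⟨t', ht'⟩ : ∃ t', t = t' + 1 := ⟨t - 1, by omega⟩
  rw [ht', orb_succ, orb_succ] at h1
  have h5 : orb p s ≠ orb p t' := hmin t' (by omega) s (by omega)
  have h6 : orb p t' = - orb p s := by
    have h7 : (orb p s - orb p t') * (orb p s + orb p t') = 0 := by linear_combination h1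
    rcases mul_eq_zero.1 h7 with h8 | h8
    · exact absurd (sub_eq_zero.1 h8) h5
    · linear_combination h8
  have hmul : ∀ a : ZMod p, ¬ IsSquare a → IsSquare (-a) := by
    intro a ha
    have ha0 : a ≠ 0 := fun h9 => ha (h9 ▸ IsSquare.zero)
    have h9 := quadraticChar_neg_one_iff_not_isSquare.2 ha
    have h10 := quadraticChar_neg_one_iff_not_isSquare.2 hm
    rw [← quadraticChar_one_iff_isSquare (neg_ne_zero.2 ha0), ← neg_one_mul, map_mul, h9, h10]
    norm_num
  -- the tail has length two
  have hs1 : s = 1 := by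
    by_contra hs
    rcases Nat.lt_or_ge s 1 with h7 | h7
    · have h8 : s = 0 := by omega
      rw [h8, h0, neg_zero] at h6
      rw [h8, h0, h6] at h5
      exact h5 rfl
    · have h8 := hmul _ (h s (by omega))
      rw [← h6] at h8
      exact h t' (by omega) h8
  rw [hs1, h01] at h6
  exact ⟨t', by omega, h6⟩

end aux

theorem isSquare_two : IsSquare (-1 : ZMod 2) := ⟨1, by decide⟩

/-- **Result.**  For a prime `p`, the polynomial `x ^ 2 + 1` is stable over the field with `p`
elements if and only if `p ≡ 3 (mod 4)` and there is `n ≥ 2` such that the `n`-th iterate of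
`x ↦ x ^ 2 + 1` at `0` is `-1` modulo `p` and the `k`-th iterate is a nonsquare modulo `p` for
`2 ≤ k ≤ n`. -/
theorem result (p : ℕ) (hp : p.Prime) :
    Stable p ↔ p % 4 = 3 ∧
      ∃ n, 2 ≤ n ∧ orb p n = -1 ∧ ∀ k, 2 ≤ k → k ≤ n → ¬ IsSquare (orb p k) := by
  have hF := Fact.mk hp
  have hm4 : ¬ IsSquare (-1 : ZMod p) ↔ p % 4 = 3 := by
    rw [ZMod.exists_sq_eq_neg_one_iff, not_not]
  rw [← hm4]
  by_cases h2 : p = 2
  · subst h2
    constructor
    · intro h
      exact absurd isSquare_two (irreducible_one.1 (h 1 le_rfl))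
    · rintro ⟨h, -⟩
      exact absurd isSquare_two h
  rw [stable_iff h2]
  constructor
  · rintro ⟨h3, h4⟩
    obtain ⟨n, hn, h5⟩ := exists_neg_one h3 h4
    exact ⟨h3, n, hn, h5, fun k hk _ => h4 k hk⟩
  · rintro ⟨h3, n, hn, h5, h6⟩
    refine ⟨h3, ?_⟩
    have h7 : orb p 2 = orb p (n + 1) := by
      have h01 : orb p 1 = 1 := by rw [orb_succ]; simp [orb]
      rw [orb_succ n, orb_succ 1, h5, h01]
      ring
    intro k
    induction k using Nat.strong_induction_on with
    | _ k ih =>
      intro hk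
      by_cases hkn : k ≤ n
      · exact h6 k hk hkn
      · have h8 := orb_add h7 (k - (n + 1))
        rw [show n + 1 + (k - (n + 1)) = k by omega] at h8
        rw [← h8]
        exact ih _ (by omega) (by omega)

end Pool.Agent.Results.MP_4023cd_nt.CriticalCycle
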