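import Mathlib
import Pool.Agent.W401S.BT

/-! Primes `p` for which `x^2+1` is stable over the field with `p` elements: the critical orbit is a
cycle through `-1`, so `p` divides a number `x_m + 1`; and an unconditional upper bound for the number of
stable primes, from the pairwise coprime numbers `x_l`, `l` an odd prime. -/

set_option autoImplicit false

open Polynomial

namespace Pool.Agent.Results.MP_4023cd_nt.OrbitThroughMinusOne

/-- `x^2+1` is stable over the field with `p` elements: all its iterates are irreducible -/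
def Stable (p : ℕ) : Prop :=
  ∀ n : ℕ, 1 ≤ n →
    Irreducible ((fun g : Polynomial (ZMod p) => (X ^ 2 + 1 : Polynomial (ZMod p)).comp g)^[n] X)

/-- the critical orbit `0, 1, 2, 5, 26, 677, …` -/
def x : ℕ → ℕ
  | 0 => 0
  | n + 1 => x n ^ 2 + 1

lemma x_eq (n : ℕ) : x n = Pool.Agent.W401S.orb n := by
  induction n with
  | zero => rfl
  | succ n ih => simp [x, Pool.Agent.W401S.orb, ih]

open Classical in
/-- **Main result.** -/
theorem result :
    -- (1) at a stable prime `x_2, x_3, …` are non-squares, the orbit reaches `-1`, and `p ∣ x_m + 1`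
    (∀ p : ℕ, p.Prime → Stable p →
      (∀ n : ℕ, 2 ≤ n → ¬ IsSquare ((x n : ℕ) : ZMod p)) ∧
      ∃ m : ℕ, 2 ≤ m ∧ ((x m : ℕ) : ZMod p) = -1 ∧ p ∣ x m + 1) ∧
    -- (2) for every finite set `S` of odd primes and `Q` the product of the `x_l`, `l` in `S`, the number of
    -- stable primes below `K Q` is at most `C K Q / (2 ^ |S| log K)`
    ∃ C : ℝ, 1 ≤ C ∧ ∀ S : Finset ℕ, (∀ l ∈ S, l.Prime ∧ Odd l) → ∀ K : ℕ, 2 ≤ K →
      (((Finset.range (K * ∏ l ∈ S, x l)).filter fun p => p.Prime ∧ Stable p).card : ℝ) ≤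
        C * (K * ∏ l ∈ S, x l : ℕ) / (2 ^ S.card * Real.log K) := by
  refine ⟨fun p hp h => ?_, ?_⟩
  · have : Fact p.Prime := ⟨hp⟩
    have h' : Pool.Agent.W401S.Stable p := h
    refine ⟨fun n hn => by rw [x_eq]; exact Pool.Agent.W401S.orb_nonsq h' n hn, ?_⟩
    obtain ⟨m, hm, h1⟩ := Pool.Agent.W401S.exists_neg_one h'
    refine ⟨m, hm, by rw [x_eq]; exact h1, ?_⟩
    rw [← CharP.cast_eq_zero_iff (ZMod p) p, x_eq]
    push_cast
    rw [show ((Pool.Agent.W401S.orb m : ℕ) : ZMod p) = Pool.Agent.W401S.o p m from rfl, h1]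
    ring
  · obtain ⟨C, hC, h⟩ := Pool.Agent.W401S.count_block
    refine ⟨C, hC, fun S hS K hK => ?_⟩
    have e : ∏ l ∈ S, x l = Pool.Agent.W401S.Q S := Finset.prod_congr rfl fun l _ => x_eq l
    rw [e]
    exact h S hS K hK

end Pool.Agent.Results.MP_4023cd_nt.OrbitThroughMinusOne
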